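import Mathlib

/-!
# A coset automatic pair that is not strongly coset automatic

`G = ℤ² ⋊ ℤ`, where `ℤ` acts through powers of the matrix `[[2,1],[1,1]]`, and `H = ℤ²`.
-/

set_option autoImplicit false

namespace Pool.Agent.Results.MP_6b1724_al.SolPair

/-! ### The notions of the problem -/

section Defs

variable {G : Type} [Group G]

/-- The alphabet `A = X ∪ X⁻¹`. -/
def Alph (X : Set G) : Type := {g : G // g ∈ X ∨ g⁻¹ ∈ X}

/-- The element of `G` represented by a word over `A`. -/
def val {X : Set G} (w : List (Alph X)) : G := (w.map (fun a => a.1)).prod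

/-- The padded pair `(v, w)`: the two words are read synchronously, the shorter one is padded at the
end by the padding symbol `none`. -/
def pad {α : Type} : List α → List α → List (Option α × Option α)
  | [], [] => []
  | a :: v, [] => (some a, none) :: pad v []
  | [], b :: w => (none, some b) :: pad [] w
  | a :: v, b :: w => (some a, some b) :: pad v w

/-- `Hg = Hg'`. -/
def SameRightCoset (H : Subgroup G) (g g' : G) : Prop := ∃ h ∈ H, g = h * g'

/-- `(G, H)` is coset automatic with respect to `X`: there are a finite state automaton accepting a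
language `L` which contains a representative of every right coset, and, for each
`a ∈ A ∪ {ε}`, a two-variable finite state automaton accepting the padded pair `(v, w)` if
and only if `v, w ∈ L` and `Hva = Hw`. -/
def CosetAutomatic (X : Set G) (H : Subgroup G) : Prop :=
  ∃ L : Language (Alph X), L.IsRegular ∧ (∀ g : G, ∃ w ∈ L, SameRightCoset H g (val w)) ∧
    ∀ a : G, (a = 1 ∨ a ∈ X ∨ a⁻¹ ∈ X) →
      ∃ M : Language (Option (Alph X) × Option (Alph X)), M.IsRegular ∧
        ∀ v w : List (Alph X),
          pad v w ∈ M ↔ v ∈ L ∧ w ∈ L ∧ SameRightCoset H (val v * a) (val w)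

/-- The distance of `g` and `g'` in the Cayley graph `Γ(G, X)` is at most `k`. -/
def DistLe (X : Set G) (k : ℕ) (g g' : G) : Prop :=
  ∃ w : List (Alph X), w.length ≤ k ∧ g * val w = g'

/-- `(G, H)` is strongly coset automatic with respect to `X`. Here `w(i)` is the element
represented by the prefix of `w` of length `min i |w|`. -/
def StronglyCosetAutomatic (X : Set G) (H : Subgroup G) : Prop :=
  ∃ L : Language (Alph X), L.IsRegular ∧ ∃ K : ℕ,
    (∀ g : G, ∃ w ∈ L, SameRightCoset H g (val w)) ∧
    ∀ v ∈ L, ∀ w ∈ L, ∀ h ∈ H, DistLe X 1 (val v) (h * val w) →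
      ∀ i : ℕ, DistLe X K (val (v.take i)) (h * val (w.take i))

end Defs

/-! ### Some regular languages -/

section Regular

variable {α : Type}

open Classical in
lemma reg_all (x : α) : Language.IsRegular ({w | ∀ a ∈ w, a = x} : Set (List α)) := by
  let M : DFA α Bool := ⟨fun b a => b && decide (a = x), true, {true}⟩
  have hM : ∀ (w : List α) (b : Bool), M.evalFrom b w = true ↔ (b = true ∧ ∀ a ∈ w, a = x) := by
    intro w
    induction w with
    | nil => intro b; simp [DFA.evalFrom]
    | cons a w ih =>
      intro b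
      rw [DFA.evalFrom_cons, ih]
      simp only [M, Bool.and_eq_true, decide_eq_true_eq, List.mem_cons, forall_eq_or_imp]
      tauto
  refine ⟨Bool, inferInstance, M, ?_⟩
  ext w
  rw [DFA.mem_accepts]
  have := hM w true
  simp only [true_and] at this
  change M.evalFrom true w ∈ ({true} : Set Bool) ↔ _
  rw [Set.mem_singleton_iff, this]
  rfl

open Classical in
lemma reg_snoc (x u : α) (hxu : u ≠ x) :
    Language.IsRegular ({w | ∃ i : ℕ, w = List.replicate i x ++ [u]} : Set (List α)) := by
  let M : DFA α (Fin 3) :=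
    ⟨fun s a => if s = 0 then (if a = x then 0 else if a = u then 1 else 2) else 2, 0, {1}⟩
  have h2 : ∀ w : List α, M.evalFrom 2 w = 2 := by
    intro w
    induction w with
    | nil => simp [DFA.evalFrom]
    | cons a w ih => rw [DFA.evalFrom_cons]; simpa [M] using ih
  have h1 : ∀ w : List α, M.evalFrom 1 w = 1 ↔ w = [] := by
    intro w
    cases w with
    | nil => simp [DFA.evalFrom]
    | cons a w =>
      rw [DFA.evalFrom_cons]
      have : M.step 1 a = 2 := by simp [M]
      rw [this, h2]
      simp
  have h0 : ∀ w : List α, M.evalFrom 0 w = 1 ↔ ∃ i : ℕ, w = List.replicate i x ++ [u] := by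
    intro w
    induction w with
    | nil => simp [DFA.evalFrom]
    | cons a w ih =>
      rw [DFA.evalFrom_cons]
      by_cases hax : a = x
      · have : M.step 0 a = 0 := by simp [M, hax]
        rw [this, ih]
        constructor
        · rintro ⟨i, rfl⟩
          exact ⟨i + 1, by simp [List.replicate_succ, hax]⟩
        · rintro ⟨i, hi⟩
          cases i with
          | zero => simp at hi; exact absurd (hi.1.symm.trans hax) hxu
          | succ i =>
            rw [List.replicate_succ, List.cons_append] at hi
            exact ⟨i, (List.cons.inj hi).2⟩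
      · by_cases hau : a = u
        · have : M.step 0 a = 1 := by simp [M, hau, hxu]
          rw [this, h1]
          constructor
          · rintro rfl
            exact ⟨0, by simp [hau]⟩
          · rintro ⟨i, hi⟩
            cases i with
            | zero => simp at hi; exact hi.2
            | succ i =>
              rw [List.replicate_succ, List.cons_append] at hi
              exact absurd (List.cons.inj hi).1 hax
        · have : M.step 0 a = 2 := by simp [M, hax, hau]
          rw [this, h2]
          constructor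
          · intro h; simp at h
          · rintro ⟨i, hi⟩
            cases i with
            | zero => simp at hi; exact absurd hi.1 hau
            | succ i =>
              rw [List.replicate_succ, List.cons_append] at hi
              exact absurd (List.cons.inj hi).1 hax
  refine ⟨Fin 3, inferInstance, M, ?_⟩
  ext w
  rw [DFA.mem_accepts]
  change M.evalFrom 0 w ∈ ({1} : Set (Fin 3)) ↔ _
  rw [Set.mem_singleton_iff, h0]
  rfl

lemma all_iff (x : α) (w : List α) : (∀ a ∈ w, a = x) ↔ ∃ n : ℕ, w = List.replicate n x := by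
  constructor
  · intro h
    exact ⟨w.length, List.eq_replicate_iff.2 ⟨rfl, h⟩⟩
  · rintro ⟨n, rfl⟩ a ha
    exact List.eq_of_mem_replicate ha

lemma pad_replicate (x y : α) (v w : List α) (n : ℕ) :
    pad v w = List.replicate n (some x, some y) ↔
      v = List.replicate n x ∧ w = List.replicate n y := by
  induction n generalizing v w with
  | zero => cases v <;> cases w <;> simp [pad]
  | succ n ih =>
    cases v <;> cases w <;> simp [pad, List.replicate_succ, ih]
    tauto

lemma pad_snoc_right (x y z : α) (v w : List α) (n : ℕ) :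
    pad v w = List.replicate n (some x, some y) ++ [(none, some z)] ↔
      v = List.replicate n x ∧ w = List.replicate n y ++ [z] := by
  induction n generalizing v w with
  | zero =>
    cases v with
    | nil =>
      cases w with
      | nil => simp [pad]
      | cons b w => cases w <;> simp [pad]
    | cons a v => cases w <;> simp [pad]
  | succ n ih =>
    cases v <;> cases w <;> simp [pad, List.replicate_succ, ih]
    tauto

lemma pad_snoc_left (x y z : α) (v w : List α) (n : ℕ) :
    pad v w = List.replicate n (some x, some y) ++ [(some z, none)] ↔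
      v = List.replicate n x ++ [z] ∧ w = List.replicate n y := by
  induction n generalizing v w with
  | zero =>
    cases v with
    | nil => cases w <;> simp [pad]
    | cons a v =>
      cases w with
      | nil => cases v <;> simp [pad]
      | cons b w => simp [pad]
  | succ n ih =>
    cases v <;> cases w <;> simp [pad, List.replicate_succ, ih]
    tauto

end Regular

/-! ### The group -/

/-- The automorphism `(x, y) ↦ (2x + y, x + y)` of `ℤ²`. -/
def aAut : (ℤ × ℤ) ≃+ (ℤ × ℤ) where
  toFun p := (2 * p.1 + p.2, p.1 + p.2)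
  invFun p := (p.1 - p.2, 2 * p.2 - p.1)
  left_inv p := by ext <;> simp <;> ring
  right_inv p := by ext <;> simp <;> ring
  map_add' p q := by ext <;> simp <;> ring

/-- The action of `ℤ` on `ℤ²` through powers of `aAut` (in multiplicative notation). -/
def act : Multiplicative ℤ →* MulAut (Multiplicative (ℤ × ℤ)) :=
  zpowersHom _ (AddEquiv.toMultiplicative aAut)

/-- `G = ℤ² ⋊ ℤ`. -/
abbrev Sol : Type := Multiplicative (ℤ × ℤ) ⋊[act] Multiplicative ℤ

/-- `H = ℤ²`, the kernel of the projection `G → ℤ`. -/
def H : Subgroup Sol := (SemidirectProduct.rightHom : Sol →* Multiplicative ℤ).ker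

def p : Sol := SemidirectProduct.inl (Multiplicative.ofAdd (1, 0))
def q : Sol := SemidirectProduct.inl (Multiplicative.ofAdd (0, 1))
def t : Sol := SemidirectProduct.inr (Multiplicative.ofAdd 1)

/-- The generating set `X = {p, q, t}`. -/
def X : Set Sol := {p, q, t}

/-- The exponent of `t`: the projection `G → ℤ`. -/
def e (g : Sol) : ℤ := Multiplicative.toAdd g.right

lemma e_one : e 1 = 0 := rfl
lemma e_mul (g h : Sol) : e (g * h) = e g + e h := rfl
lemma e_inv (g : Sol) : e g⁻¹ = - e g := rfl

lemma mem_H (g : Sol) : g ∈ H ↔ e g = 0 := by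
  rw [H, MonoidHom.mem_ker]
  exact Iff.rfl

lemma coset_iff (g g' : Sol) : SameRightCoset H g g' ↔ e g = e g' := by
  constructor
  · rintro ⟨h, hh, rfl⟩
    rw [e_mul, (mem_H h).1 hh, zero_add]
  · intro h
    refine ⟨g * g'⁻¹, ?_, by group⟩
    rw [mem_H, e_mul, e_inv, h, add_neg_cancel]

lemma e_t : e t = 1 := rfl
lemma e_p : e p = 0 := rfl
lemma e_q : e q = 0 := rfl

lemma inl_mem (n : Multiplicative (ℤ × ℤ)) : (SemidirectProduct.inl n : Sol) ∈ Subgroup.closure X := by
  have h : n = (Multiplicative.ofAdd ((1, 0) : ℤ × ℤ)) ^ (Multiplicative.toAdd n).1 *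
      (Multiplicative.ofAdd ((0, 1) : ℤ × ℤ)) ^ (Multiplicative.toAdd n).2 := by
    apply Multiplicative.toAdd.injective
    ext <;> simp [toAdd_mul, toAdd_zpow]
  rw [h, map_mul, map_zpow, map_zpow]
  refine mul_mem (zpow_mem (Subgroup.subset_closure ?_) _) (zpow_mem (Subgroup.subset_closure ?_) _)
  · exact Or.inl rfl
  · exact Or.inr (Or.inl rfl)

lemma closure_X : Subgroup.closure X = ⊤ := by
  rw [eq_top_iff]
  intro g _
  rw [← SemidirectProduct.inl_left_mul_inr_right g]
  refine mul_mem (inl_mem _) ?_
  have h : g.right = (Multiplicative.ofAdd (1 : ℤ)) ^ (Multiplicative.toAdd g.right) := by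
    apply Multiplicative.toAdd.injective
    simp [toAdd_zpow]
  rw [h, map_zpow]
  exact (Subgroup.closure X).zpow_mem
    (Subgroup.subset_closure (show t ∈ X from Or.inr (Or.inr rfl))) _

lemma H_fg : H.FG := by
  refine ⟨{p, q}, ?_⟩
  apply le_antisymm
  · rw [Subgroup.closure_le]
    intro x hx
    simp only [Finset.coe_insert, Finset.coe_singleton, Set.mem_insert_iff,
      Set.mem_singleton_iff] at hx
    rcases hx with rfl | rfl
    · exact (mem_H _).2 e_p
    · exact (mem_H _).2 e_q
  · intro g hg
    have hr : g.right = 1 := by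
      have := (mem_H g).1 hg
      exact Multiplicative.toAdd.injective this
    rw [← SemidirectProduct.inl_left_mul_inr_right g, hr, map_one, mul_one]
    have h : g.left = (Multiplicative.ofAdd ((1, 0) : ℤ × ℤ)) ^ (Multiplicative.toAdd g.left).1 *
        (Multiplicative.ofAdd ((0, 1) : ℤ × ℤ)) ^ (Multiplicative.toAdd g.left).2 := by
      apply Multiplicative.toAdd.injective
      ext <;> simp [toAdd_mul, toAdd_zpow]
    rw [h, map_mul, map_zpow, map_zpow]
    refine mul_mem (zpow_mem (Subgroup.subset_closure ?_) _)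
      (zpow_mem (Subgroup.subset_closure ?_) _)
    · simp [p]
    · simp [q]

/-! ### The pair is coset automatic -/

def T : Alph X := ⟨t, Or.inl (Or.inr (Or.inr rfl))⟩
def T' : Alph X := ⟨t⁻¹, Or.inr (by rw [inv_inv]; exact Or.inr (Or.inr rfl))⟩

lemma val_cons {Y : Set Sol} (a : Alph Y) (w : List (Alph Y)) : val (a :: w) = a.1 * val w := by
  simp [val]

lemma e_val_T (n : ℕ) : e (val (List.replicate n T)) = n := by
  induction n with
  | zero => rfl
  | succ n ih =>
    have : val (List.replicate (n + 1) T) = t * val (List.replicate n T) := by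
      rw [List.replicate_succ, val_cons]; rfl
    rw [this, e_mul, ih, e_t]; push_cast; ring

lemma e_val_T' (n : ℕ) : e (val (List.replicate n T')) = - n := by
  induction n with
  | zero => rfl
  | succ n ih =>
    have : val (List.replicate (n + 1) T') = t⁻¹ * val (List.replicate n T') := by
      rw [List.replicate_succ, val_cons]; rfl
    rw [this, e_mul, ih, e_inv, e_t]; push_cast; ring

/-- The language of all words `tⁿ` and `(t⁻¹)ⁿ`. -/
def L : Language (Alph X) :=
  ({w | (∀ a ∈ w, a = T) ∨ ∀ a ∈ w, a = T'} : Set (List (Alph X)))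

lemma mem_L (w : List (Alph X)) :
    w ∈ L ↔ (∃ n : ℕ, w = List.replicate n T) ∨ ∃ n : ℕ, w = List.replicate n T' := by
  rw [← all_iff, ← all_iff]; exact Iff.rfl

lemma L_regular : L.IsRegular := (reg_all T).add (reg_all T')

lemma L_covers (g : Sol) : ∃ w ∈ L, SameRightCoset H g (val w) := by
  rcases Int.eq_nat_or_neg (e g) with ⟨n, hn | hn⟩
  · exact ⟨List.replicate n T, (mem_L _).2 (Or.inl ⟨n, rfl⟩), (coset_iff _ _).2
      (by rw [hn, e_val_T])⟩
  · exact ⟨List.replicate n T', (mem_L _).2 (Or.inr ⟨n, rfl⟩), (coset_iff _ _).2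
      (by rw [hn, e_val_T'])⟩

lemma multiplier (s : ℤ) (hs : s = 0 ∨ s = 1 ∨ s = -1) :
    ∃ M : Language (Option (Alph X) × Option (Alph X)), M.IsRegular ∧
      ∀ v w : List (Alph X), pad v w ∈ M ↔ v ∈ L ∧ w ∈ L ∧ e (val v) + s = e (val w) := by
  rcases hs with rfl | rfl | rfl
  · refine ⟨_, (reg_all (some T, some T)).add (reg_all (some T', some T')), ?_⟩
    intro v w
    have : (pad v w ∈ (({w | ∀ a ∈ w, a = (some T, some T)} :
        Set (List (Option (Alph X) × Option (Alph X)))) ∪
        {w | ∀ a ∈ w, a = (some T', some T')} : Set _)) ↔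
        (∃ n, v = List.replicate n T ∧ w = List.replicate n T) ∨
        (∃ n, v = List.replicate n T' ∧ w = List.replicate n T') := by
      rw [Set.mem_union]
      simp only [Set.mem_ofPred_eq, all_iff, pad_replicate]
    refine this.trans ?_
    rw [mem_L, mem_L]
    constructor
    · rintro (⟨n, rfl, rfl⟩ | ⟨n, rfl, rfl⟩)
      · exact ⟨Or.inl ⟨n, rfl⟩, Or.inl ⟨n, rfl⟩, by ring⟩
      · exact ⟨Or.inr ⟨n, rfl⟩, Or.inr ⟨n, rfl⟩, by ring⟩
    · rintro ⟨⟨n, rfl⟩ | ⟨n, rfl⟩, ⟨m, rfl⟩ | ⟨m, rfl⟩, h⟩ <;>
        simp only [e_val_T, e_val_T'] at h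
      · have : n = m := by omega
        subst this; exact Or.inl ⟨n, rfl, rfl⟩
      · have hn : n = 0 := by omega
        have hm : m = 0 := by omega
        subst hn; subst hm; exact Or.inl ⟨0, rfl, rfl⟩
      · have hn : n = 0 := by omega
        have hm : m = 0 := by omega
        subst hn; subst hm; exact Or.inl ⟨0, rfl, rfl⟩
      · have : n = m := by omega
        subst this; exact Or.inr ⟨n, rfl, rfl⟩
  · refine ⟨_, (reg_snoc (some T, some T) (none, some T) (by simp)).add
      (reg_snoc (some T', some T') (some T', none) (by simp)), ?_⟩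
    intro v w
    have : (pad v w ∈ (({w | ∃ i : ℕ, w = List.replicate i (some T, some T) ++ [(none, some T)]} :
        Set (List (Option (Alph X) × Option (Alph X)))) ∪
        {w | ∃ i : ℕ, w = List.replicate i (some T', some T') ++ [(some T', none)]} : Set _)) ↔
        (∃ n, v = List.replicate n T ∧ w = List.replicate n T ++ [T]) ∨
        (∃ n, v = List.replicate n T' ++ [T'] ∧ w = List.replicate n T') := by
      rw [Set.mem_union]
      simp only [Set.mem_ofPred_eq, pad_snoc_left, pad_snoc_right]
    refine this.trans ?_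
    rw [mem_L, mem_L]
    simp only [← List.replicate_succ']
    constructor
    · rintro (⟨n, rfl, rfl⟩ | ⟨n, rfl, rfl⟩)
      · exact ⟨Or.inl ⟨n, rfl⟩, Or.inl ⟨n + 1, rfl⟩, by simp only [e_val_T]; push_cast; ring⟩
      · exact ⟨Or.inr ⟨n + 1, rfl⟩, Or.inr ⟨n, rfl⟩, by simp only [e_val_T']; push_cast; ring⟩
    · rintro ⟨⟨n, rfl⟩ | ⟨n, rfl⟩, ⟨m, rfl⟩ | ⟨m, rfl⟩, h⟩ <;>
        simp only [e_val_T, e_val_T'] at h
      · have : m = n + 1 := by omega
        subst this; exact Or.inl ⟨n, rfl, rfl⟩
      · omega
      · rcases Nat.eq_zero_or_pos n with hn | hn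
        · have hm : m = 1 := by omega
          subst hn; subst hm; exact Or.inl ⟨0, rfl, rfl⟩
        · have hn1 : n = 1 := by omega
          have hm : m = 0 := by omega
          subst hn1; subst hm; exact Or.inr ⟨0, rfl, rfl⟩
      · have : n = m + 1 := by omega
        subst this; exact Or.inr ⟨m, rfl, rfl⟩
  · refine ⟨_, (reg_snoc (some T, some T) (some T, none) (by simp)).add
      (reg_snoc (some T', some T') (none, some T') (by simp)), ?_⟩
    intro v w
    have : (pad v w ∈ (({w | ∃ i : ℕ, w = List.replicate i (some T, some T) ++ [(some T, none)]} :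
        Set (List (Option (Alph X) × Option (Alph X)))) ∪
        {w | ∃ i : ℕ, w = List.replicate i (some T', some T') ++ [(none, some T')]} : Set _)) ↔
        (∃ n, v = List.replicate n T ++ [T] ∧ w = List.replicate n T) ∨
        (∃ n, v = List.replicate n T' ∧ w = List.replicate n T' ++ [T']) := by
      rw [Set.mem_union]
      simp only [Set.mem_ofPred_eq, pad_snoc_left, pad_snoc_right]
    refine this.trans ?_
    rw [mem_L, mem_L]
    simp only [← List.replicate_succ']
    constructor
    · rintro (⟨n, rfl, rfl⟩ | ⟨n, rfl, rfl⟩)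
      · exact ⟨Or.inl ⟨n + 1, rfl⟩, Or.inl ⟨n, rfl⟩, by simp only [e_val_T]; push_cast; ring⟩
      · exact ⟨Or.inr ⟨n, rfl⟩, Or.inr ⟨n + 1, rfl⟩, by simp only [e_val_T']; push_cast; ring⟩
    · rintro ⟨⟨n, rfl⟩ | ⟨n, rfl⟩, ⟨m, rfl⟩ | ⟨m, rfl⟩, h⟩ <;>
        simp only [e_val_T, e_val_T'] at h
      · have : n = m + 1 := by omega
        subst this; exact Or.inl ⟨m, rfl, rfl⟩
      · rcases Nat.eq_zero_or_pos n with hn | hn
        · have hm : m = 1 := by omega
          subst hn; subst hm; exact Or.inr ⟨0, rfl, rfl⟩
        · have hn1 : n = 1 := by omega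
          have hm : m = 0 := by omega
          subst hn1; subst hm; exact Or.inl ⟨0, rfl, rfl⟩
      · omega
      · have : m = n + 1 := by omega
        subst this; exact Or.inr ⟨n, rfl, rfl⟩

theorem cosetAutomatic : CosetAutomatic X H := by
  refine ⟨L, L_regular, L_covers, ?_⟩
  intro a ha
  have hs : e a = 0 ∨ e a = 1 ∨ e a = -1 := by
    rcases ha with rfl | ha | ha
    · exact Or.inl rfl
    · rcases ha with rfl | rfl | rfl
      · exact Or.inl rfl
      · exact Or.inl rfl
      · exact Or.inr (Or.inl rfl)
    · have h1 : e a = - e a⁻¹ := by rw [e_inv]; ring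
      rw [h1]
      rcases ha with h | h | h <;> rw [h]
      · exact Or.inl rfl
      · exact Or.inl rfl
      · exact Or.inr (Or.inr rfl)
  obtain ⟨M, hM, h⟩ := multiplier (e a) hs
  refine ⟨M, hM, fun v w => ?_⟩
  rw [h, coset_iff, e_mul]

/-! ### The pair is not strongly coset automatic -/

section Strong

lemma val_append {Y : Set Sol} (v w : List (Alph Y)) : val (v ++ w) = val v * val w := by
  simp [val]

lemma exists_word {Y : Set Sol} (hY : Subgroup.closure Y = ⊤) (g : Sol) :
    ∃ w : List (Alph Y), val w = g := by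
  have hg : g ∈ Subgroup.closure Y := by rw [hY]; trivial
  induction hg using Subgroup.closure_induction'' with
  | one => exact ⟨[], rfl⟩
  | mem x hx =>
    let a : Alph Y := ⟨x, Or.inl hx⟩
    exact ⟨[a], (val_cons a []).trans (mul_one _)⟩
  | inv_mem x hx =>
    let a : Alph Y := ⟨x⁻¹, Or.inr (by rwa [inv_inv])⟩
    exact ⟨[a], (val_cons a []).trans (mul_one _)⟩
  | mul x y _ _ hx hy =>
    obtain ⟨v, hv⟩ := hx
    obtain ⟨w, hw⟩ := hy
    exact ⟨v ++ w, by rw [val_append, hv, hw]⟩

/-- The `ℓ¹`-norm of the `ℤ²`-part. -/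
def nrm (g : Sol) : ℕ :=
  (Multiplicative.toAdd g.left).1.natAbs + (Multiplicative.toAdd g.left).2.natAbs

lemma left_mul_of_mem {h h' : Sol} (hh : h ∈ H) : (h * h').left = h.left * h'.left := by
  have hr : h.right = 1 := Multiplicative.toAdd.injective ((mem_H h).1 hh)
  rw [SemidirectProduct.mul_left, hr, map_one]
  rfl

lemma nrm_mul {h h' : Sol} (hh : h ∈ H) : nrm (h * h') ≤ nrm h + nrm h' := by
  unfold nrm
  rw [left_mul_of_mem hh, toAdd_mul, Prod.fst_add, Prod.snd_add]
  have h1 := Int.natAbs_add_le (Multiplicative.toAdd h.left).1 (Multiplicative.toAdd h'.left).1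
  have h2 := Int.natAbs_add_le (Multiplicative.toAdd h.left).2 (Multiplicative.toAdd h'.left).2
  omega

lemma H_comm {h h' : Sol} (hh : h ∈ H) (hh' : h' ∈ H) : h * h' = h' * h := by
  have hr : h.right = 1 := Multiplicative.toAdd.injective ((mem_H h).1 hh)
  have hr' : h'.right = 1 := Multiplicative.toAdd.injective ((mem_H h').1 hh')
  ext1
  · rw [left_mul_of_mem hh, left_mul_of_mem hh', mul_comm]
  · rw [SemidirectProduct.mul_right, SemidirectProduct.mul_right, hr, hr']

/-- The elements `tⁿ p t⁻ⁿ` of `H`. -/
def big (n : ℕ) : Sol := t ^ n * p * (t⁻¹) ^ n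

lemma big_succ (n : ℕ) : big (n + 1) = t * big n * t⁻¹ := by
  unfold big
  rw [pow_succ', pow_succ]
  simp only [mul_assoc]

lemma big_mem (n : ℕ) : big n ∈ H := by
  rw [mem_H]
  induction n with
  | zero => rfl
  | succ n ih => rw [big_succ, e_mul, e_mul, ih, e_inv]; ring

lemma act_one (v : Multiplicative (ℤ × ℤ)) :
    act (Multiplicative.ofAdd 1) v =
      Multiplicative.ofAdd (2 * (Multiplicative.toAdd v).1 + (Multiplicative.toAdd v).2,
        (Multiplicative.toAdd v).1 + (Multiplicative.toAdd v).2) := by
  have : act (Multiplicative.ofAdd 1) = AddEquiv.toMultiplicative aAut := by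
    rw [act, zpowersHom_apply]
    simp
  rw [this]
  rfl

lemma big_left (n : ℕ) :
    0 ≤ (Multiplicative.toAdd (big n).left).2 ∧
      (2 : ℤ) ^ n ≤ (Multiplicative.toAdd (big n).left).1 := by
  induction n with
  | zero =>
    have : (big 0).left = Multiplicative.ofAdd ((1, 0) : ℤ × ℤ) := by
      simp [big, p]
    rw [this]
    simp
  | succ n ih =>
    have h : (big (n + 1)).left = act (Multiplicative.ofAdd 1) (big n).left := by
      rw [big_succ]
      simp [SemidirectProduct.mul_left, t]
    rw [h, act_one]
    simp only [toAdd_ofAdd]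
    rw [pow_succ]
    constructor
    · have : (0 : ℤ) < 2 ^ n := by positivity
      linarith [ih.1, ih.2]
    · linarith [ih.1, ih.2]

lemma pow_le_nrm_big (n : ℕ) : 2 ^ n ≤ nrm (big n) := by
  have h := (big_left n).2
  unfold nrm
  have h1 : (2 ^ n : ℤ) ≤ ((Multiplicative.toAdd (big n).left).1.natAbs : ℤ) :=
    h.trans Int.le_natAbs
  have h2 : 2 ^ n ≤ (Multiplicative.toAdd (big n).left).1.natAbs := by exact_mod_cast h1
  omega

lemma alph_finite {Y : Set Sol} (hY : Y.Finite) : Finite (Alph Y) := by
  have : ({g : Sol | g ∈ Y ∨ g⁻¹ ∈ Y} : Set Sol).Finite := by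
    apply Set.Finite.union hY
    exact Set.Finite.preimage (inv_injective.injOn) hY
  exact this.to_subtype

lemma ball_finite {Y : Set Sol} (hY : Y.Finite) (K : ℕ) : {g : Sol | DistLe Y K 1 g}.Finite := by
  have := alph_finite hY
  have h : {g : Sol | DistLe Y K 1 g} ⊆ val '' {w : List (Alph Y) | w.length ≤ K} := by
    rintro g ⟨w, hw, hg⟩
    exact ⟨w, hw, by rw [← hg, one_mul]⟩
  exact Set.Finite.subset (Set.Finite.image _ (List.finite_length_le _ K)) h

lemma sq_le_two_pow (n : ℕ) (hn : 4 ≤ n) : n ^ 2 ≤ 2 ^ n := by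
  induction n, hn using Nat.le_induction with
  | base => norm_num
  | succ n hn ih => rw [pow_succ 2 n]; nlinarith

theorem not_strong (Y : Set Sol) (hfin : Y.Finite) (hY : Subgroup.closure Y = ⊤) :
    ¬ StronglyCosetAutomatic Y H := by
  rintro ⟨L, -, K, hcov, hft⟩
  -- representatives of the cosets
  have hrep : ∀ n : ℤ, ∃ w ∈ L, e (val w) = n := by
    intro n
    obtain ⟨w, hw, hc⟩ := hcov (SemidirectProduct.inr (Multiplicative.ofAdd n))
    refine ⟨w, hw, ?_⟩
    rw [coset_iff] at hc
    rw [← hc]
    rfl
  choose u huL hu using hrep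
  obtain ⟨C, hC⟩ : ∃ C : ℕ, ∀ h : Sol, DistLe Y K 1 h → nrm h ≤ C := by
    obtain ⟨C, hC⟩ := ((ball_finite hfin K).image nrm).bddAbove
    exact ⟨C, fun h hh => hC ⟨h, hh, rfl⟩⟩
  have step : ∀ (n : ℤ) (x : Alph Y), ∃ h ∈ H, nrm h ≤ C ∧
      val (u n) * x.1 = h * val (u (n + e x.1)) := by
    intro n x
    have hc : SameRightCoset H (val (u n) * x.1) (val (u (n + e x.1))) := by
      rw [coset_iff, e_mul, hu, hu]
    obtain ⟨h, hh, heq⟩ := hc
    refine ⟨h, hh, ?_, heq⟩
    have hd : DistLe Y 1 (val (u n)) (h * val (u (n + e x.1))) :=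
      ⟨[x], by simp, by rw [← heq]; simp [val]⟩
    have := hft _ (huL n) _ (huL (n + e x.1)) h hh hd 0
    rw [List.take_zero, List.take_zero] at this
    apply hC
    have h1 : (val ([] : List (Alph Y)) : Sol) = 1 := rfl
    rw [h1, mul_one] at this
    exact this
  have walk : ∀ w : List (Alph Y), ∃ h ∈ H, nrm h ≤ C * w.length ∧
      val (u 0) * val w = h * val (u (e (val w))) := by
    intro w
    induction w using List.reverseRecOn with
    | nil =>
      refine ⟨1, one_mem _, ?_, ?_⟩
      · simp [nrm]
      · have h1 : (val ([] : List (Alph Y)) : Sol) = 1 := rfl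
        rw [h1, e_one, mul_one, one_mul]
    | append_singleton w x ih =>
      obtain ⟨h, hh, hn, heq⟩ := ih
      obtain ⟨h', hh', hn', heq'⟩ := step (e (val w)) x
      refine ⟨h * h', mul_mem hh hh', ?_, ?_⟩
      · calc nrm (h * h') ≤ nrm h + nrm h' := nrm_mul hh
          _ ≤ C * w.length + C := by omega
          _ = C * (w ++ [x]).length := by simp [mul_add]
      · have hx : val [x] = x.1 := by simp [val]
        rw [val_append, hx, ← mul_assoc, heq, mul_assoc, heq', e_mul, mul_assoc]
  have lin : ∀ w : List (Alph Y), val w ∈ H → nrm (val w) ≤ C * w.length := by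
    intro w hw
    obtain ⟨h, hh, hn, heq⟩ := walk w
    rw [(mem_H _).1 hw] at heq
    have h0 : val (u 0) ∈ H := (mem_H _).2 (hu 0)
    rw [H_comm h0 hw] at heq
    have := mul_right_cancel heq
    rw [this]
    exact hn
  obtain ⟨wt, hwt⟩ := exists_word hY t
  obtain ⟨wt', hwt'⟩ := exists_word hY t⁻¹
  obtain ⟨wp, hwp⟩ := exists_word hY p
  have hbig : ∀ n : ℕ, ∃ w : List (Alph Y), val w = big n ∧
      w.length = n * wt.length + wp.length + n * wt'.length := by
    intro n
    induction n with
    | zero => exact ⟨wp, by simp [big, hwp], by simp⟩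
    | succ n ih =>
      obtain ⟨w, hw, hl⟩ := ih
      refine ⟨wt ++ w ++ wt', ?_, ?_⟩
      · rw [val_append, val_append, hw, hwt, hwt', big_succ]
      · rw [List.length_append, List.length_append, hl]; ring
  have key : ∀ n : ℕ, 2 ^ n ≤ C * (n * wt.length + wp.length + n * wt'.length) := by
    intro n
    obtain ⟨w, hw, hl⟩ := hbig n
    have := lin w (by rw [hw]; exact big_mem n)
    rw [hw, hl] at this
    exact (pow_le_nrm_big n).trans this
  set D : ℕ := C * (wt.length + wp.length + wt'.length) + 4 with hD
  have h1 := key D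
  have h2 := sq_le_two_pow D (by omega)
  have h3 : C * (D * wt.length + wp.length + D * wt'.length) ≤ (D - 4) * D := by
    have : D - 4 = C * (wt.length + wp.length + wt'.length) := by omega
    rw [this]
    have hD1 : 1 ≤ D := by omega
    nlinarith [Nat.mul_le_mul (Nat.le_refl (C * wp.length)) hD1]
  have h4 : (D - 4) * D < D ^ 2 := by
    rw [pow_two]
    exact Nat.mul_lt_mul_of_pos_right (by omega) (by omega)
  omega

end Strong

/-- **Main result** (negative answer to Q1).  There are a group `G` with a finite generating set `X`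
and a subgroup `H`, finitely generated and normal in `G`, such that `(G, H)` is coset
automatic with respect to `X`, but, for every finite generating set `Y` of `G`, `(G, H)` is not strongly coset
automatic with respect to `Y`. -/
theorem result :
    ∃ (G : Type) (_ : Group G) (X : Set G) (H : Subgroup G),
      X.Finite ∧ Subgroup.closure X = ⊤ ∧ H.FG ∧ H.Normal ∧ CosetAutomatic X H ∧
        ∀ Y : Set G, Y.Finite → Subgroup.closure Y = ⊤ → ¬ StronglyCosetAutomatic Y H :=
  ⟨Sol, inferInstance, X, H, by simp [X], closure_X, H_fg, by unfold H; infer_instance,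
    cosetAutomatic, not_strong⟩

end Pool.Agent.Results.MP_6b1724_al.SolPair
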